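import Mathlib
import Pool.Agent.R190.Spr.Main

set_option autoImplicit false

open Set Ordinal

namespace Pool.Agent.Results.MP_abea68_an.NoSPREmbedding

/-- The compact space `[1, ω ^ ω]` of ordinals (with its order topology, which is the subspace
topology). -/
abbrev KK : Type 1 := ↥(Set.Icc (1 : Ordinal.{0}) (ω ^ ω))

/-- `E` does `C`-stable phase retrieval in the Banach lattice `C[1, ω ^ ω]`. -/
def DoesSPR (C : ℝ) (E : Submodule ℝ C(KK, ℝ)) : Prop :=
  ∀ f ∈ E, ∀ g ∈ E, min ‖f - g‖ ‖f + g‖ ≤ C * ‖|f| - |g|‖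

/-- No isomorphic embedding (in particular no isometric embedding, `c = 1`) of `C[1, ω ^ ω]` into
itself has an image that does stable phase retrieval, for any constant. -/
theorem result (T : C(KK, ℝ) →L[ℝ] C(KK, ℝ)) (c : ℝ) (hc : 0 < c)
    (hT : ∀ v : C(KK, ℝ), c * ‖v‖ ≤ ‖T v‖) (C : ℝ) : ¬ DoesSPR C (LinearMap.range T.toLinearMap) := by
  intro h
  obtain ⟨f, ⟨u, rfl⟩, g, ⟨v, rfl⟩, hfg⟩ := Pool.Agent.R190.Spr.main T hc hT C
  exact absurd (h _ ⟨u, rfl⟩ _ ⟨v, rfl⟩) (not_le.2 hfg)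

/-- the topology of `KK` is its order topology -/
lemma KK_orderTopology : OrderTopology KK := inferInstance

end Pool.Agent.Results.MP_abea68_an.NoSPREmbedding
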